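import Mathlib

namespace Pool.Agent.Results.MP_43e0cc_an.JordanShift

open Set Filter

/-- `ℓ_p(E)`: bilateral `p`-summable sequences in `E`. -/
abbrev L (E : Type) [NormedAddCommGroup E] (p : ENNReal) : Type := lp (fun _ : ℤ => E) p

section Defs
variable {K : Type} [RCLike K] {p : ENNReal} [Fact (1 ≤ p)]
  {E : Type} [NormedAddCommGroup E] [NormedSpace K E]

/-- The maps `S n` and their inverses are uniformly bounded. -/
def UnifBdd (S : ℤ → E ≃L[K] E) : Prop :=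
  ∃ C : ℝ, ∀ n v, ‖S n v‖ ≤ C * ‖v‖ ∧ ‖(S n).symm v‖ ≤ C * ‖v‖

/-- `T` is the shift operator generated by the maps `S n`. -/
def IsShift (S : ℤ → E ≃L[K] E) (T : L E p → L E p) : Prop :=
  ∀ x n, T x n = S (n + 1) (x (n + 1))

/-- The weights are bounded and bounded away from zero. -/
def Weights {k : ℕ} (ω : Fin k → ℤ → K) : Prop :=
  ∃ c C : ℝ, 0 < c ∧ ∀ i n, c ≤ ‖ω i n‖ ∧ ‖ω i n‖ ≤ C

/-- `B` is the product of the weighted backward shifts with weights `ω i`. -/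
def IsProd {k : ℕ} (ω : Fin k → ℤ → K) (B : (Fin k → L K p) → (Fin k → L K p)) : Prop :=
  ∀ x i n, B x i n = ω i (n + 1) * x i (n + 1)

variable (K) in
/-- Linear conjugacy by a continuous linear bijection. -/
def Conj {F G : Type} [NormedAddCommGroup F] [NormedSpace K F] [NormedAddCommGroup G]
    [NormedSpace K G] (T : F → F) (B : G → G) : Prop :=
  ∃ H : F ≃L[K] G, ∀ x, H (T x) = B (H x)

variable (K) in
/-- `T` is not linearly conjugate to any finite product of weighted backward shifts. -/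
def NotConjProd (T : L E p → L E p) : Prop :=
  ∀ (k : ℕ) (ω : Fin k → ℤ → K) (B : (Fin k → L K p) → (Fin k → L K p)),
    Weights ω → IsProd ω B → ¬ Conj K T B

variable (K p E) in
/-- Some admissible sequence `S` generates a bounded shift operator on `ℓ_p(E)` that is not
linearly conjugate to any finite product of weighted backward shifts. -/
def ExistsExotic : Prop :=
  ∃ (S : ℤ → E ≃L[K] E) (T : L E p → L E p),
    UnifBdd S ∧ IsShift S T ∧ IsBoundedLinearMap K T ∧ NotConjProd K T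

end Defs

variable {K : Type} [RCLike K] {p : ENNReal} [Fact (1 ≤ p)]

theorem p_ne : p ≠ 0 := (zero_lt_one.trans_le (Fact.out : 1 ≤ p)).ne'

theorem p_pos (hp : p ≠ ⊤) : 0 < p.toReal := ENNReal.toReal_pos p_ne hp

section Norm
variable {E E' : Type} [NormedAddCommGroup E] [NormedAddCommGroup E']

theorem summ (hp : p ≠ ⊤) (f : L E p) (g : ℤ → E') (a : ℤ) {C : ℝ} (hC : 0 ≤ C)
    (h : ∀ n, ‖g n‖ ≤ C * ‖f (n + a)‖) :
    HasSum (fun n => (C * ‖f (n + a)‖) ^ p.toReal) ((C * ‖f‖) ^ p.toReal) ∧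
      ∀ n, ‖g n‖ ^ p.toReal ≤ (C * ‖f (n + a)‖) ^ p.toReal := by
  refine ⟨?_, fun n => Real.rpow_le_rpow (norm_nonneg _) (h n) (p_pos hp).le⟩
  have := ((Equiv.addRight a).hasSum_iff.2 (lp.hasSum_norm (p_pos hp) f)).mul_left (C ^ p.toReal)
  simp only [Real.mul_rpow hC (norm_nonneg _)]
  exact this

theorem mem_of_le (hp : p ≠ ⊤) (f : L E p) (g : ℤ → E') (a : ℤ) {C : ℝ} (hC : 0 ≤ C)
    (h : ∀ n, ‖g n‖ ≤ C * ‖f (n + a)‖) : Memℓp g p :=
  memℓp_gen ((summ hp f g a hC h).1.summable.of_nonneg_of_le (fun _ => by positivity)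
    (summ hp f g a hC h).2)

theorem norm_le (hp : p ≠ ⊤) (f : L E p) (g : L E' p) (a : ℤ) {C : ℝ} (hC : 0 ≤ C)
    (h : ∀ n, ‖g n‖ ≤ C * ‖f (n + a)‖) : ‖g‖ ≤ C * ‖f‖ := by
  refine lp.norm_le_of_tsum_le (p_pos hp) (by positivity) ?_
  rw [← (summ hp f g a hC h).1.tsum_eq]
  exact Summable.tsum_le_tsum (summ hp f g a hC h).2 ((lp.memℓp g).summable (p_pos hp))
    (summ hp f g a hC h).1.summable

/-- The operator `x ↦ (A x_{n+a})_n`. -/
noncomputable def op [NormedSpace K E] (hp : p ≠ ⊤) (A : E →L[K] E) (a : ℤ) :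
    L E p →L[K] L E p :=
  LinearMap.mkContinuous
    { toFun := fun x => ⟨fun n => A (x (n + a)),
        mem_of_le hp x _ a (norm_nonneg A) fun n => A.le_opNorm _⟩
      map_add' := fun x y => by ext n; exact A.map_add _ _
      map_smul' := fun c x => by ext n; exact A.map_smul _ _ } ‖A‖
    fun x => norm_le hp x _ a (norm_nonneg A) fun n => A.le_opNorm _

theorem op_apply [NormedSpace K E] (hp : p ≠ ⊤) (A : E →L[K] E) (a : ℤ) (x : L E p) (n : ℤ) :
    op hp A a x n = A (x (n + a)) := rfl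

end Norm

section Props
variable {F G : Type} [NormedAddCommGroup F] [NormedSpace K F] [NormedAddCommGroup G]
  [NormedSpace K G]

/-- Every orbit stays near vectors with bounded orbit. -/
def P1 (T : F →L[K] F) : Prop :=
  ∃ C : ℝ, ∀ x (n : ℕ), ∃ y, (∃ D : ℝ, ∀ m : ℕ, ‖(T ^ m) y‖ ≤ D) ∧ ‖(T ^ n) x - y‖ ≤ C * ‖x‖

/-- Orbits are bounded below. -/
def P2 (T : F →L[K] F) : Prop := ∀ x, x ≠ 0 → ∃ c : ℝ, 0 < c ∧ ∀ n : ℕ, c ≤ ‖(T ^ n) x‖

/-- Power boundedness. -/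
def PB (T : F →L[K] F) : Prop := ∃ C : ℝ, ∀ (n : ℕ) x, ‖(T ^ n) x‖ ≤ C * ‖x‖

variable {T : F →L[K] F} {B : G →L[K] G} {H : F ≃L[K] G}

theorem conj_pow (h : ∀ x, H (T x) = B (H x)) (n : ℕ) (x : F) :
    H ((T ^ n) x) = (B ^ n) (H x) := by
  induction n with
  | zero => simp
  | succ n ih => rw [pow_succ', pow_succ', mul_apply_eq_comp, mul_apply_eq_comp, h, ih]

theorem P1.conj (h : ∀ x, H (T x) = B (H x)) (h1 : P1 T) : P1 B := by
  obtain ⟨C, hC⟩ := h1
  refine ⟨‖(H : F →L[K] G)‖ * (|C| * ‖(H.symm : G →L[K] F)‖), fun x n => ?_⟩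
  obtain ⟨y, ⟨D, hD⟩, hy⟩ := hC (H.symm x) n
  refine ⟨H y, ⟨‖(H : F →L[K] G)‖ * D, fun m => ?_⟩, ?_⟩
  · rw [← conj_pow h]
    exact ((H : F →L[K] G).le_opNorm _).trans (by gcongr; exact hD m)
  · have e : (B ^ n) x - H y = H ((T ^ n) (H.symm x) - y) := by
      rw [map_sub, conj_pow h, H.apply_symm_apply]
    rw [e, mul_assoc, mul_assoc]
    refine ((H : F →L[K] G).le_opNorm _).trans ?_
    gcongr
    refine hy.trans ?_
    gcongr
    · exact le_abs_self C
    · exact (H.symm : G →L[K] F).le_opNorm _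

theorem P2.conj (h : ∀ x, H (T x) = B (H x)) (h2 : P2 T) : P2 B := by
  intro x hx
  obtain ⟨c, hc, hn⟩ := h2 (H.symm x) (by simpa using hx)
  refine ⟨c / (‖(H.symm : G →L[K] F)‖ + 1), by positivity, fun n => ?_⟩
  rw [div_le_iff₀ (by positivity)]
  have e : (T ^ n) (H.symm x) = H.symm ((B ^ n) x) := by
    rw [ContinuousLinearEquiv.eq_symm_apply, conj_pow h, H.apply_symm_apply]
  have h3 := (H.symm : G →L[K] F).le_opNorm ((B ^ n) x)
  have h4 := hn n
  rw [e] at h4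
  have h5 := norm_nonneg ((B ^ n) x)
  have h6 : ‖H.symm ((B ^ n) x)‖ ≤ ‖(H.symm : G →L[K] F)‖ * ‖(B ^ n) x‖ := h3
  nlinarith

theorem PB.conj (h : ∀ x, H (T x) = B (H x)) (h3 : PB B) : PB T := by
  obtain ⟨C, hC⟩ := h3
  refine ⟨‖(H.symm : G →L[K] F)‖ * (|C| * ‖(H : F →L[K] G)‖), fun n x => ?_⟩
  have e : (T ^ n) x = H.symm ((B ^ n) (H x)) := by
    rw [ContinuousLinearEquiv.eq_symm_apply, conj_pow h]
  rw [e, mul_assoc, mul_assoc]
  refine ((H.symm : G →L[K] F).le_opNorm _).trans ?_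
  gcongr
  refine (hC n _).trans ?_
  gcongr
  · exact le_abs_self C
  · exact (H : F →L[K] G).le_opNorm _

end Props

section Jordan

/-- The first basis vector. -/
noncomputable def e0 (K : Type) [RCLike K] : EuclideanSpace K (Fin 2) := EuclideanSpace.single 0 1

/-- The Jordan block `[[1, c], [0, 1]]`. -/
noncomputable def J (c : K) : EuclideanSpace K (Fin 2) →L[K] EuclideanSpace K (Fin 2) :=
  ContinuousLinearMap.id K _ + c • (EuclideanSpace.proj (1 : Fin 2)).smulRight (e0 K)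

theorem J_apply (c : K) (v : EuclideanSpace K (Fin 2)) : J c v = v + (c * v 1) • e0 K := by
  simp [J, smul_smul]

theorem J_one (c : K) (v : EuclideanSpace K (Fin 2)) : J c v 1 = v 1 := by
  simp [J_apply, e0]

theorem J_J (c d : K) (v : EuclideanSpace K (Fin 2)) : J c (J d v) = J (c + d) v := by
  rw [J_apply c, J_one, J_apply, J_apply, add_mul, add_smul]
  abel

theorem J_zero (v : EuclideanSpace K (Fin 2)) : J (0 : K) v = v := by simp [J_apply]

theorem T_pow (hp : p ≠ ⊤) (ε : ℤ) (m : ℕ) (x : L (EuclideanSpace K (Fin 2)) p) (n : ℤ) :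
    ((op hp (J (ε : K)) ε) ^ m) x n = J ((ε * m : ℤ) : K) (x (n + ε * m)) := by
  induction m generalizing n with
  | zero => simp [J_zero]
  | succ m ih =>
    rw [pow_succ', mul_apply_eq_comp, op_apply, ih, J_J]
    have e1 : (ε : K) + ((ε * m : ℤ) : K) = ((ε * (m + 1 : ℕ) : ℤ) : K) := by push_cast; ring
    have e2 : n + ε + ε * m = n + ε * (m + 1 : ℕ) := by push_cast; ring
    rw [e1, e2]

theorem T_P1 (hp : p ≠ ⊤) (ε : ℤ) : P1 (op hp (J (ε : K)) ε) := by
  let Q : EuclideanSpace K (Fin 2) →L[K] EuclideanSpace K (Fin 2) :=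
    (EuclideanSpace.proj (1 : Fin 2)).smulRight (EuclideanSpace.single 1 1)
  have hQ : ∀ v, Q v = v 1 • EuclideanSpace.single 1 1 := fun v => rfl
  refine ⟨1, fun x n => ⟨((op hp (J (ε : K)) ε) ^ n) x - op hp Q (ε * n) x, ⟨‖((op hp (J (ε : K)) ε) ^ n) x -
    op hp Q (ε * n) x‖, fun m => ?_⟩, ?_⟩⟩
  · rw [← one_mul ‖_ - _‖]
    refine norm_le hp _ _ (ε * m) zero_le_one fun j => ?_
    rw [T_pow, one_mul, J_apply]
    have : (((op hp (J (ε : K)) ε) ^ n) x - op hp Q (ε * n) x) (j + ε * m) 1 = 0 := by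
      rw [lp.coeFn_sub, Pi.sub_apply, T_pow, op_apply, hQ, PiLp.sub_apply, J_one]
      simp
    rw [this]
    simp
  · rw [sub_sub_cancel]
    refine norm_le hp _ _ (ε * n) zero_le_one fun j => ?_
    rw [op_apply, hQ, norm_smul, one_mul]
    simpa using PiLp.norm_apply_le (x (j + ε * n)) 1

theorem T_P2 (hp : p ≠ ⊤) (ε : ℤ) : P2 (op hp (J (ε : K)) ε) := by
  intro x hx
  obtain ⟨j, hj⟩ : ∃ j, x j ≠ 0 := by
    by_contra h
    push Not at h
    exact hx (lp.ext (funext h))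
  have key : ∀ n : ℕ, ‖J ((ε * n : ℤ) : K) (x j)‖ ≤ ‖((op hp (J (ε : K)) ε) ^ n) x‖ := by
    intro n
    have := lp.norm_apply_le_norm p_ne (((op hp (J (ε : K)) ε) ^ n) x) (j - ε * n)
    rwa [T_pow, sub_add_cancel] at this
  by_cases h1 : x j 1 = 0
  · refine ⟨‖x j‖, norm_pos_iff.2 hj, fun n => le_trans (le_of_eq ?_) (key n)⟩
    rw [J_apply, h1]; simp
  · refine ⟨‖x j 1‖, norm_pos_iff.2 h1, fun n => le_trans ?_ (key n)⟩
    rw [← J_one ((ε * n : ℤ) : K)]
    exact PiLp.norm_apply_le _ 1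

theorem T_PB (hp : p ≠ ⊤) : ¬ PB (op hp (J ((1 : ℤ) : K)) 1) := by
  rintro ⟨C, hC⟩
  obtain ⟨n, hn⟩ := exists_nat_gt C
  let x : L (EuclideanSpace K (Fin 2)) p := lp.single p 0 (EuclideanSpace.single 1 1)
  have h1 := hC n x
  have h2 := lp.norm_apply_le_norm p_ne (((op hp (J ((1 : ℤ) : K)) 1) ^ n) x) (-(1 * n))
  rw [T_pow, neg_add_cancel] at h2
  have h3 := PiLp.norm_apply_le (J ((1 * n : ℤ) : K) (x 0)) 0
  have h4 : ‖x‖ = 1 := by
    rw [lp.norm_single (pos_iff_ne_zero.2 p_ne)]; simp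
  have h5 : ‖J ((1 * n : ℤ) : K) (x 0) 0‖ = n := by
    simp [x, J_apply, e0]
  rw [h4] at h1
  linarith

end Jordan

section Prod
variable {k : ℕ}

theorem R_pow {R : (Fin k → L K p) →L[K] (Fin k → L K p)} {u : Fin k → ℤ → K} {ε : ℤ}
    (hu : ∀ i n, u i n ≠ 0)
    (hR : ∀ x i n, R x i n * u i (n + ε) = u i n * x i (n + ε)) (m : ℕ) (x) (i) (n : ℤ) :
    (R ^ m) x i n = u i n / u i (n + ε * m) * x i (n + ε * m) := by
  induction m generalizing n with
  | zero => simp [hu]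
  | succ m ih =>
    have h := hR ((R ^ m) x) i n
    rw [ih] at h
    have e : n + ε * ((m + 1 : ℕ) : ℤ) = n + ε + ε * m := by push_cast; ring
    rw [pow_succ', mul_apply_eq_comp, e, eq_div_of_mul_eq (hu _ _) h]
    have := hu i (n + ε)
    have := hu i (n + ε + ε * m)
    field_simp

theorem side {R : (Fin k → L K p) →L[K] (Fin k → L K p)} {u : Fin k → ℤ → K} {ε : ℤ}
    (hu : ∀ i n, u i n ≠ 0)
    (hR : ∀ x i n, R x i n * u i (n + ε) = u i n * x i (n + ε)) (h1 : P1 R) (h2 : P2 R)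
    (i : Fin k) : ∃ c C : ℝ, 0 < c ∧ ∀ m : ℕ, c ≤ ‖u i (-(ε * m))‖ ∧ ‖u i (-(ε * m))‖ ≤ C := by
  let x : Fin k → L K p := Pi.single i (lp.single p 0 (u i 0))
  have hx : ∀ m : ℕ, (R ^ m) x = Pi.single i (lp.single p (-(ε * m)) (u i (-(ε * m)))) := by
    intro m
    funext j
    refine lp.ext (funext fun n => ?_)
    rw [R_pow hu hR]
    by_cases hj : j = i
    · subst hj
      simp only [x, Pi.single_eq_same]
      by_cases hn : n = -(ε * m)
      · subst hn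
        simp [hu]
      · rw [lp.single_apply_ne _ _ _ hn, lp.single_apply_ne _ _ _ (by omega), mul_zero]
    · simp [x, hj]
  have hn : ∀ m : ℕ, ‖(R ^ m) x‖ = ‖u i (-(ε * m))‖ := by
    intro m
    rw [hx, Pi.norm_single, lp.norm_single (pos_iff_ne_zero.2 p_ne)]
  have hx0 : x ≠ 0 := by
    have := hn 0
    rw [pow_zero, one_apply_eq_self] at this
    rw [← norm_pos_iff, this, norm_pos_iff]
    exact hu _ _
  obtain ⟨c, hc, hc2⟩ := h2 x hx0
  obtain ⟨C, hC⟩ : ∃ C : ℝ, ∀ m : ℕ, ‖u i (-(ε * m))‖ ≤ C := by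
    by_contra hcon
    obtain ⟨C, hC⟩ := h1
    refine hcon ⟨C * ‖x‖, fun n => ?_⟩
    obtain ⟨y, ⟨D, hD⟩, hy⟩ := hC x n
    have hy0 : y i (-(ε * n)) = 0 := by
      by_contra hne
      apply hcon
      have hb : ∀ m : ℕ, ‖u i (-(ε * (n + m : ℕ)))‖ ≤
          D * ‖u i (-(ε * n))‖ / ‖y i (-(ε * n))‖ := by
        intro m
        have a1 := (lp.norm_apply_le_norm p_ne ((R ^ m) y i) (-(ε * (n + m : ℕ)))).trans
          ((norm_le_pi_norm _ i).trans (hD m))
        have e : -(ε * (n + m : ℕ)) + ε * m = -(ε * n) := by push_cast; ring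
        rw [R_pow hu hR, e, norm_mul, norm_div, div_mul_eq_mul_div,
          div_le_iff₀ (norm_pos_iff.2 (hu _ _))] at a1
        rwa [le_div_iff₀ (norm_pos_iff.2 hne)]
      obtain ⟨C', hC'⟩ := ((Finset.range n).image fun m : ℕ => ‖u i (-(ε * m))‖).bddAbove
      refine ⟨max C' (D * ‖u i (-(ε * n))‖ / ‖y i (-(ε * n))‖), fun m => ?_⟩
      by_cases hm : m < n
      · exact le_max_of_le_left (hC' (Finset.mem_coe.2
          (Finset.mem_image.2 ⟨m, Finset.mem_range.2 hm, rfl⟩)))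
      · obtain ⟨m', rfl⟩ := Nat.exists_eq_add_of_le (not_lt.1 hm)
        exact le_max_of_le_right (hb m')
    have a1 := (lp.norm_apply_le_norm p_ne (((R ^ n) x - y) i) (-(ε * n))).trans
      ((norm_le_pi_norm _ i).trans hy)
    rw [Pi.sub_apply, lp.coeFn_sub, Pi.sub_apply, hy0, sub_zero, hx] at a1
    simpa using a1
  exact ⟨c, C, hc, fun m => ⟨hn m ▸ hc2 m, hC m⟩⟩

theorem exists_u (ω : ℤ → K) (hω : ∀ n, ω n ≠ 0) :
    ∃ u : ℤ → K, (∀ n, u n ≠ 0) ∧ ∀ n, u n = ω (n + 1) * u (n + 1) := by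
  refine ⟨fun n => (∏ j ∈ Finset.range (-n).toNat, ω (-j)) /
    ∏ j ∈ Finset.range n.toNat, ω (j + 1), fun n => ?_, fun n => ?_⟩
  · exact div_ne_zero (Finset.prod_ne_zero_iff.2 fun _ _ => hω _)
      (Finset.prod_ne_zero_iff.2 fun _ _ => hω _)
  · rcases n with n | n
    · have e1 : (-(Int.ofNat n)).toNat = 0 := by simp
      have e2 : (-(Int.ofNat n + 1)).toNat = 0 := by
        rw [Int.toNat_eq_zero]; simp
      have e3 : (Int.ofNat n + 1).toNat = n + 1 := by simp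
      have e4 : (Int.ofNat n).toNat = n := rfl
      simp only [e1, e2, e3, e4, Finset.prod_range_succ]
      have := hω (n + 1)
      have : ∏ j ∈ Finset.range n, ω (j + 1) ≠ 0 := Finset.prod_ne_zero_iff.2 fun _ _ => hω _
      simp only [Int.ofNat_eq_natCast]
      field_simp
    · have e0 : Int.negSucc n + 1 = -n := by rw [Int.negSucc_eq]; ring
      have e1 : (-(Int.negSucc n)).toNat = n + 1 := by rw [Int.negSucc_eq]; simp
      have e2 : (Int.negSucc n).toNat = 0 := rfl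
      have e3 : (-(n : ℤ)).toNat = 0 := by simp
      simp only [e0, e1, e2, e3, neg_neg, Int.toNat_natCast, Finset.prod_range_succ]
      ring

end Prod

/-- For every `1 ≤ p < ∞` and `K = ℝ` or `ℂ` there is a shift operator generated by invertible
`2 × 2` matrices that is not linearly conjugate to any finite product of weighted shifts. -/
theorem result (K : Type) [RCLike K] (p : ENNReal) [Fact (1 ≤ p)] (hp : p ≠ ⊤) :
    ExistsExotic K p (EuclideanSpace K (Fin 2)) := by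
  let S : EuclideanSpace K (Fin 2) ≃L[K] EuclideanSpace K (Fin 2) :=
    ContinuousLinearEquiv.equivOfInverse (J ((1 : ℤ) : K)) (J ((-1 : ℤ) : K))
      (fun v => by rw [J_J]; simp [J_zero]) (fun v => by rw [J_J]; simp [J_zero])
  refine ⟨fun _ => S, op hp (J ((1 : ℤ) : K)) 1, ⟨‖J ((1 : ℤ) : K)‖ + ‖J ((-1 : ℤ) : K)‖,
    fun _ v => ⟨?_, ?_⟩⟩, fun x n => rfl, ContinuousLinearMap.isBoundedLinearMap _, ?_⟩
  · exact ((J ((1 : ℤ) : K)).le_opNorm v).trans (by gcongr; simp)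
  · exact ((J ((-1 : ℤ) : K)).le_opNorm v).trans (by gcongr; simp)
  rintro k ω B0 ⟨c0, C0, hc0, hω⟩ hB0 ⟨H, hH0⟩
  let B : (Fin k → L K p) →L[K] (Fin k → L K p) :=
    (H : _ →L[K] _) ∘L op hp (J ((1 : ℤ) : K)) 1 ∘L (H.symm : _ →L[K] _)
  have hH : ∀ x, H (op hp (J ((1 : ℤ) : K)) 1 x) = B (H x) := fun x => by simp [B]
  have hB : ∀ x i n, B x i n = ω i (n + 1) * x i (n + 1) := by
    intro x i n
    rw [← hB0, ← H.apply_symm_apply x, ← hH, hH0]
  have hω0 : ∀ i n, ω i n ≠ 0 := fun i n => norm_pos_iff.1 (hc0.trans_le (hω i n).1)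
  choose u hu0 hu using fun i => exists_u (ω i) (hω0 i)
  let T' := op hp (J ((-1 : ℤ) : K)) (-1)
  let B' : (Fin k → L K p) →L[K] (Fin k → L K p) :=
    (H : _ →L[K] _) ∘L T' ∘L (H.symm : _ →L[K] _)
  have hH' : ∀ x, H (T' x) = B' (H x) := fun x => by simp [B']
  have hBB : ∀ x, B (B' x) = x := by
    intro x
    change B (H (T' (H.symm x))) = x
    rw [← hH, ← ContinuousLinearEquiv.eq_symm_apply]
    refine lp.ext (funext fun n => ?_)
    rw [op_apply, op_apply, J_J]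
    simp [J_zero]
  have hR1 : ∀ x i n, B x i n * u i (n + 1) = u i n * x i (n + 1) := by
    intro x i n
    rw [hB, hu i n]; ring
  have hR2 : ∀ x i n, B' x i n * u i (n + -1) = u i n * x i (n + -1) := by
    intro x i n
    have h1 := hB (B' x) i (n + -1)
    have h2 := hu i (n + -1)
    rw [hBB] at h1
    rw [neg_add_cancel_right] at h1 h2
    rw [h1, h2]; ring
  choose c1 C1 hc1 h1 using side hu0 hR1 ((T_P1 hp 1).conj hH) ((T_P2 hp 1).conj hH)
  choose c2 C2 hc2 h2 using side hu0 hR2 ((T_P1 hp (-1)).conj hH')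
    ((T_P2 hp (-1)).conj hH')
  have hb : ∀ i n, min (c1 i) (c2 i) ≤ ‖u i n‖ ∧ ‖u i n‖ ≤ max (C1 i) (C2 i) := by
    intro i n
    rcases le_total n 0 with hn | hn
    · obtain ⟨m, rfl⟩ : ∃ m : ℕ, n = -(1 * m) := ⟨(-n).toNat, by omega⟩
      exact ⟨min_le_of_left_le (h1 i m).1, le_max_of_le_left (h1 i m).2⟩
    · obtain ⟨m, rfl⟩ : ∃ m : ℕ, n = -(-1 * m) := ⟨n.toNat, by omega⟩
      exact ⟨min_le_of_right_le (h2 i m).1, le_max_of_le_right (h2 i m).2⟩
  obtain ⟨C, hC⟩ := Finite.bddAbove_range fun i => max (C1 i) (C2 i) / min (c1 i) (c2 i)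
  refine T_PB hp (PB.conj hH ⟨|C|, fun m x => ?_⟩)
  refine (pi_norm_le_iff_of_nonneg (by positivity)).2 fun i => ?_
  refine le_trans (norm_le hp (x i) _ (1 * m) (abs_nonneg C) fun n => ?_)
    (by gcongr; exact norm_le_pi_norm x i)
  rw [R_pow hu0 hR1, norm_mul, norm_div]
  gcongr
  refine le_trans ?_ ((hC ⟨i, rfl⟩).trans (le_abs_self C))
  have h3 : 0 < min (c1 i) (c2 i) := lt_min (hc1 i) (hc2 i)
  exact div_le_div₀ ((norm_nonneg _).trans (hb i n).2) (hb i n).2 h3 (hb i _).1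

end Pool.Agent.Results.MP_43e0cc_an.JordanShift
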